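import Pool.Agent.Lib_helper98.H4.Defs2

/-!
# Block GG: bounds for the Gamma function
-/

namespace Pool.Agent.H4

open Complex MeasureTheory Filter Topology

theorem gg_int {x c : ℝ} (hx : 0 < x) (hc : 0 < c) :
    IntegrableOn (fun t : ℝ => t ^ (x - 1) * Real.exp (-(c * t))) (Set.Ioi 0) := by
  have h := integrableOn_rpow_mul_exp_neg_mul_rpow (p := 1) (s := x - 1) (b := c)
    (by linarith) one_pos hc
  refine h.congr_fun (fun t _ => ?_) measurableSet_Ioi
  simp only [Real.rpow_one, neg_mul]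

theorem gg_norm {a r : ℂ} {t : ℝ} (ht : 0 < t) :
    ‖(t : ℂ) ^ (a - 1) * cexp (-(r * t))‖ = t ^ (a.re - 1) * Real.exp (-(r.re * t)) := by
  rw [norm_mul, norm_cpow_eq_rpow_re_of_pos ht, Complex.norm_exp]
  simp

theorem gg_meas {a r : ℂ} : AEStronglyMeasurable (fun t : ℝ => (t : ℂ) ^ (a - 1) * cexp (-(r * t)))
    (volume.restrict (Set.Ioi 0)) := by
  refine ContinuousOn.aestronglyMeasurable ?_ measurableSet_Ioi
  intro t ht
  refine ContinuousAt.continuousWithinAt ?_
  refine ContinuousAt.mul ?_ (by fun_prop)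
  exact (continuousAt_ofReal_cpow_const _ _ (Or.inr (ne_of_gt ht)))

theorem gg_int' {a r : ℂ} (ha : 0 < a.re) (hr : 0 < r.re) :
    Integrable (fun t : ℝ => (t : ℂ) ^ (a - 1) * cexp (-(r * t)))
      (volume.restrict (Set.Ioi 0)) := by
  refine (gg_int ha hr).mono' gg_meas ?_
  filter_upwards [ae_restrict_mem measurableSet_Ioi] with t ht
  exact (gg_norm ht).le

theorem gg_diff {a : ℂ} (ha : 0 < a.re) {r : ℂ} (hr : 0 < r.re) :
    DifferentiableAt ℂ (fun r : ℂ => ∫ t : ℝ in Set.Ioi 0, (t : ℂ) ^ (a - 1) * cexp (-(r * t))) r := by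
  have hr2 : 0 < r.re / 2 := by linarith
  have key := hasDerivAt_integral_of_dominated_loc_of_deriv_le (𝕜 := ℂ)
    (μ := volume.restrict (Set.Ioi (0 : ℝ))) (x₀ := r) (s := {z : ℂ | r.re / 2 < z.re})
    (F := fun (r : ℂ) (t : ℝ) => (t : ℂ) ^ (a - 1) * cexp (-(r * t)))
    (F' := fun (r : ℂ) (t : ℝ) => (t : ℂ) ^ (a - 1) * (cexp (-(r * t)) * (-t)))
    (bound := fun t => t ^ (a.re + 1 - 1) * Real.exp (-(r.re / 2 * t)))
    ((isOpen_lt continuous_const continuous_re).mem_nhds (by simp only [Set.mem_ofPred_eq]; linarith))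
    (Eventually.of_forall fun _ => gg_meas) (gg_int' ha hr) ?_ ?_ ?_ ?_
  · exact key.2.differentiableAt
  · have h1 : (fun t : ℝ => (t : ℂ) ^ (a - 1) * (cexp (-(r * t)) * (-t))) =
        fun t : ℝ => ((t : ℂ) ^ (a - 1) * cexp (-(r * t))) * (-(t : ℂ)) := by
      funext t; ring
    rw [h1]
    exact gg_meas.mul (by fun_prop)
  · filter_upwards [ae_restrict_mem measurableSet_Ioi] with t ht z hz
    have ht0 : 0 < t := ht
    have h1 : (t : ℂ) ^ (a - 1) * (cexp (-(z * t)) * (-t)) =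
        ((t : ℂ) ^ (a - 1) * cexp (-(z * t))) * (-(t : ℂ)) := by ring
    rw [h1, norm_mul, gg_norm ht0, norm_neg, norm_real, Real.norm_of_nonneg ht0.le]
    have h2 : t ^ (a.re + 1 - 1) = t ^ (a.re - 1) * t := by
      rw [add_sub_cancel_right, Real.rpow_sub_one ht0.ne']
      field_simp
    rw [h2]
    have h3 : Real.exp (-(z.re * t)) ≤ Real.exp (-(r.re / 2 * t)) := by
      apply Real.exp_le_exp.2
      have : r.re / 2 * t ≤ z.re * t := mul_le_mul_of_nonneg_right (le_of_lt hz) ht0.le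
      linarith
    have h4 : 0 ≤ t ^ (a.re - 1) := Real.rpow_nonneg ht0.le _
    calc t ^ (a.re - 1) * Real.exp (-(z.re * t)) * t
        ≤ t ^ (a.re - 1) * Real.exp (-(r.re / 2 * t)) * t := by gcongr
      _ = t ^ (a.re - 1) * t * Real.exp (-(r.re / 2 * t)) := by ring
  · exact gg_int (by linarith) hr2
  · filter_upwards with t z _
    refine HasDerivAt.const_mul _ ?_
    have h1 : HasDerivAt (fun z : ℂ => -(z * t)) (-t) z := by
      simpa using ((hasDerivAt_id' z).mul_const (t : ℂ)).fun_neg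
    exact h1.cexp

/-- the Laplace transform of a power for complex parameters -/
theorem gg_integral {a r : ℂ} (ha : 0 < a.re) (hr : 0 < r.re) :
    ∫ t : ℝ in Set.Ioi 0, (t : ℂ) ^ (a - 1) * cexp (-(r * t)) = (1 / r) ^ a * Gamma a := by
  set U : Set ℂ := {z : ℂ | 0 < z.re} with hU
  have hUo : IsOpen U := isOpen_lt continuous_const continuous_re
  have hUc : IsPreconnected U := (convex_halfSpace_re_gt 0).isPreconnected
  have hF : AnalyticOnNhd ℂ (fun r : ℂ => ∫ t : ℝ in Set.Ioi 0, (t : ℂ) ^ (a - 1) *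
      cexp (-(r * t))) U := by
    refine DifferentiableOn.analyticOnNhd (fun z hz => ?_) hUo
    exact (gg_diff ha hz).differentiableWithinAt
  have hG : AnalyticOnNhd ℂ (fun r : ℂ => (1 / r) ^ a * Gamma a) U := by
    refine DifferentiableOn.analyticOnNhd (fun z hz => ?_) hUo
    refine DifferentiableAt.differentiableWithinAt ?_
    have hz0 : z ≠ 0 := by
      rintro rfl
      exact lt_irrefl _ (show (0 : ℝ) < (0 : ℂ).re from hz)
    have h1 : (1 / z) ∈ slitPlane := by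
      rw [one_div]
      refine Or.inl ?_
      rw [inv_re]
      exact div_pos hz (normSq_pos.2 hz0)
    have h2 : DifferentiableAt ℂ (fun r : ℂ => 1 / r) z := by
      simpa using (differentiableAt_inv hz0)
    exact (DifferentiableAt.cpow_const h2 h1).mul_const _
  have hseq : Tendsto (fun n : ℕ => (1 : ℂ) + 1 / (n + 1)) atTop (𝓝[≠] (1 : ℂ)) := by
    refine tendsto_nhdsWithin_iff.2 ⟨?_, Eventually.of_forall fun n => ?_⟩
    · have h1 : Tendsto (fun n : ℕ => (1 : ℂ) / (n + 1)) atTop (𝓝 0) :=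
        tendsto_one_div_add_atTop_nhds_zero_nat
      simpa using h1.const_add (1 : ℂ)
    · have h1 : (1 : ℂ) / (n + 1) ≠ 0 := by
        have : ((n : ℂ) + 1) ≠ 0 := by exact_mod_cast Nat.succ_ne_zero n
        exact one_div_ne_zero this
      simpa using h1
  have hfreq : ∃ᶠ z in 𝓝[≠] (1 : ℂ), (∫ t : ℝ in Set.Ioi 0, (t : ℂ) ^ (a - 1) *
      cexp (-(z * t))) = (1 / z) ^ a * Gamma a := by
    refine hseq.frequently (Frequently.of_forall fun n => ?_)
    have h1 : (1 : ℂ) + 1 / (n + 1) = ((1 + 1 / (n + 1) : ℝ) : ℂ) := by push_cast; ring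
    rw [h1]
    exact integral_cpow_mul_exp_neg_mul_Ioi ha (by positivity)
  exact hF.eqOn_of_preconnected_of_frequently_eq hG hUc (by simp [hU]) hfreq hr

theorem norm_Gamma_rot {x y θ : ℝ} (hx : 0 < x) (hθ : |θ| < Real.pi / 2) :
    ‖Gamma (x + y * I)‖ ≤ Real.exp (-(θ * y)) * Real.Gamma x * (Real.cos θ) ^ (-x) := by
  have hpi := Real.pi_pos
  have hab := abs_lt.1 hθ
  have hcos : 0 < Real.cos θ := Real.cos_pos_of_mem_Ioo ⟨by linarith [hab.1], hab.2⟩
  set a : ℂ := x + y * I with ha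
  have hare : a.re = x := by simp [ha]
  set r : ℂ := cexp (θ * I) with hr
  have hrre : r.re = Real.cos θ := by
    rw [hr, Complex.exp_re]
    simp
  have h1 := gg_integral (a := a) (r := r) (by rw [hare]; exact hx) (by rw [hrre]; exact hcos)
  have h2 : (1 / r) ^ a = cexp (-(θ * I) * a) := by
    have h3 : 1 / r = cexp (-(θ * I)) := by
      rw [hr, Complex.exp_neg, one_div]
    rw [h3, Complex.cpow_def_of_ne_zero (Complex.exp_ne_zero _), Complex.log_exp]
    · simp; linarith [hab.2]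
    · simp; linarith [hab.1]
  have h4 : ‖(1 / r) ^ a‖ = Real.exp (θ * y) := by
    rw [h2, Complex.norm_exp]
    congr 1
    simp [ha]
  have h5 : ‖∫ t : ℝ in Set.Ioi 0, (t : ℂ) ^ (a - 1) * cexp (-(r * t))‖ ≤
      (1 / Real.cos θ) ^ x * Real.Gamma x := by
    rw [← Real.integral_rpow_mul_exp_neg_mul_Ioi hx hcos]
    refine norm_integral_le_of_norm_le (gg_int hx hcos) ?_
    filter_upwards [ae_restrict_mem measurableSet_Ioi] with t ht
    rw [gg_norm ht, hare, hrre]
  rw [h1, norm_mul, h4] at h5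
  have h6 : ‖Gamma a‖ = Real.exp (-(θ * y)) * (Real.exp (θ * y) * ‖Gamma a‖) := by
    rw [← mul_assoc, ← Real.exp_add]
    simp
  rw [h6, mul_assoc]
  refine mul_le_mul_of_nonneg_left (h5.trans (le_of_eq ?_)) (Real.exp_pos _).le
  rw [Real.rpow_neg hcos.le, one_div, Real.inv_rpow hcos.le]
  ring

theorem gg_sin (w : ℂ) : ‖Complex.sin w‖ ≤ Real.exp |w.im| := by
  have h1 : Complex.sin w = (cexp (-w * I) - cexp (w * I)) * I / 2 := rfl
  have h2 : ‖cexp (-w * I)‖ ≤ Real.exp |w.im| := by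
    rw [Complex.norm_exp]
    apply Real.exp_le_exp.2
    simpa using le_abs_self w.im
  have h3 : ‖cexp (w * I)‖ ≤ Real.exp |w.im| := by
    rw [Complex.norm_exp]
    apply Real.exp_le_exp.2
    simpa using neg_le_abs w.im
  rw [h1, norm_div, norm_mul, norm_I, mul_one]
  have h4 := norm_sub_le (cexp (-w * I)) (cexp (w * I))
  have h5 : ‖(2 : ℂ)‖ = 2 := by simp
  rw [h5]
  linarith

theorem gg_shift (n : ℕ) : ∀ s : ℂ, 1 ≤ |s.im| → ‖(Gamma s)⁻¹‖ ≤ ‖(Gamma (s - n))⁻¹‖ := by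
  induction n with
  | zero => intro s _; simp
  | succ n ih =>
    intro s hs
    refine (ih s hs).trans ?_
    set w : ℂ := s - ((n + 1 : ℕ) : ℂ) with hw
    have him : w.im = s.im := by simp [hw]
    have hw0 : w ≠ 0 := by
      intro h
      rw [h] at him
      simp at him
      rw [← him] at hs
      norm_num at hs
    have h1 : s - n = w + 1 := by
      rw [hw]; push_cast; ring
    rw [h1, Complex.Gamma_add_one _ hw0, mul_inv, norm_mul]
    have h2 : 1 ≤ ‖w‖ := by
      calc (1 : ℝ) ≤ |s.im| := hs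
        _ = |w.im| := by rw [him]
        _ ≤ ‖w‖ := abs_im_le_norm w
    have h3 : ‖w⁻¹‖ ≤ 1 := by
      rw [norm_inv]
      exact inv_le_one_of_one_le₀ h2
    calc ‖w⁻¹‖ * ‖(Gamma w)⁻¹‖ ≤ 1 * ‖(Gamma w)⁻¹‖ :=
          mul_le_mul_of_nonneg_right h3 (norm_nonneg _)
      _ = _ := one_mul _

theorem gg_refl (w : ℂ) (hw : w.im ≠ 0) :
    ‖(Gamma w)⁻¹‖ ≤ ‖Gamma (1 - w)‖ * Real.exp (Real.pi * |w.im|) := by
  have h1 := Complex.Gamma_mul_Gamma_one_sub w
  have hG : Gamma w ≠ 0 := by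
    refine Complex.Gamma_ne_zero fun m h => hw ?_
    rw [h]; simp
  have hG' : Gamma (1 - w) ≠ 0 := by
    refine Complex.Gamma_ne_zero fun m h => hw ?_
    have h2 := congrArg Complex.im h
    simp at h2
    exact h2
  have hpi : (Real.pi : ℂ) ≠ 0 := by exact_mod_cast Real.pi_ne_zero
  have hsin : Complex.sin (Real.pi * w) ≠ 0 := by
    intro h
    rw [h, div_zero] at h1
    exact (mul_ne_zero hG hG') h1
  have h2 : (Gamma w)⁻¹ = Gamma (1 - w) * Complex.sin (Real.pi * w) / Real.pi := by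
    have h3 : Gamma w * Gamma (1 - w) * Complex.sin (Real.pi * w) = Real.pi := by
      rw [h1]; field_simp
    rw [eq_div_iff hpi, inv_mul_eq_iff_eq_mul₀ hG, ← mul_assoc]
    exact h3.symm
  rw [h2, norm_div, norm_mul]
  have h4 := gg_sin (Real.pi * w)
  have h5 : ((Real.pi : ℂ) * w).im = Real.pi * w.im := by simp
  rw [h5, abs_mul, abs_of_pos Real.pi_pos] at h4
  have h6 : ‖(Real.pi : ℂ)‖ = Real.pi := by
    rw [Complex.norm_real, Real.norm_of_nonneg Real.pi_pos.le]
  rw [h6]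
  have h7 : (1 : ℝ) ≤ Real.pi := by linarith [Real.pi_gt_three]
  calc ‖Gamma (1 - w)‖ * ‖Complex.sin (Real.pi * w)‖ / Real.pi
      ≤ ‖Gamma (1 - w)‖ * ‖Complex.sin (Real.pi * w)‖ := div_le_self (by positivity) h7
    _ ≤ _ := mul_le_mul_of_nonneg_left h4 (norm_nonneg _)

theorem inv_Gamma_bd {θ : ℝ} (h0 : 0 ≤ θ) (hθ : θ < Real.pi / 2) (x y : ℝ) :
    ∃ C : ℝ, ∀ s : ℂ, x ≤ s.re → s.re ≤ y →
      ‖(Gamma s)⁻¹‖ ≤ C * Real.exp ((Real.pi - θ) * |s.im|) := by
  have hpi := Real.pi_pos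
  have hcos : 0 < Real.cos θ := Real.cos_pos_of_mem_Ioo ⟨by linarith, hθ⟩
  -- compact part
  have hcomp : IsCompact ((Set.Icc x y) ×ℂ (Set.Icc (-1 : ℝ) 1)) :=
    isCompact_Icc.reProdIm isCompact_Icc
  obtain ⟨C1, hC1⟩ := hcomp.exists_bound_of_continuousOn
    (f := fun s : ℂ => (Gamma s)⁻¹) Complex.differentiable_one_div_Gamma.continuous.continuousOn
  obtain ⟨n, hn⟩ := exists_nat_ge y
  -- the Gamma function on a compact interval
  have hcont : ContinuousOn (fun u : ℝ => Real.Gamma u * (Real.cos θ) ^ (-u))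
      (Set.Icc 1 (1 + n - x)) := by
    intro u hu
    refine ContinuousAt.continuousWithinAt (ContinuousAt.mul ?_ ?_)
    · refine (Real.differentiableAt_Gamma fun m h => ?_).continuousAt
      have h1 := hu.1
      rw [h] at h1
      have h2 : (0 : ℝ) ≤ m := Nat.cast_nonneg m
      linarith
    · exact ContinuousAt.rpow continuousAt_const (by fun_prop) (Or.inl hcos.ne')
  obtain ⟨C2, hC2⟩ := isCompact_Icc.exists_bound_of_continuousOn hcont
  refine ⟨|C1| + |C2|, fun s hs1 hs2 => ?_⟩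
  have hexp : 1 ≤ Real.exp ((Real.pi - θ) * |s.im|) := by
    apply Real.one_le_exp
    have : 0 ≤ |s.im| := abs_nonneg _
    have h2 : 0 ≤ Real.pi - θ := by linarith
    positivity
  rcases le_total |s.im| 1 with him | him
  · have h1 := hC1 s (by
      rw [Complex.mem_reProdIm]
      exact ⟨⟨hs1, hs2⟩, abs_le.1 him⟩)
    calc ‖(Gamma s)⁻¹‖ ≤ |C1| := h1.trans (le_abs_self _)
      _ ≤ (|C1| + |C2|) * 1 := by
          rw [mul_one]; linarith [abs_nonneg C2]
      _ ≤ _ := mul_le_mul_of_nonneg_left hexp (by positivity)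
  · have h1 := gg_shift n s him
    have him' : (s - n).im = s.im := by simp
    have hne : (s - n).im ≠ 0 := by
      rw [him']
      intro h
      rw [h] at him
      norm_num at him
    have h2 := gg_refl (s - n) hne
    rw [him'] at h2
    have hre : (1 : ℝ) ≤ 1 + n - s.re := by linarith
    obtain ⟨θ', hθ', hθ''⟩ : ∃ θ' : ℝ, |θ'| < Real.pi / 2 ∧ (θ' * (-s.im) = θ * |s.im| ∧
        Real.cos θ' = Real.cos θ) := by
      rcases le_total 0 s.im with h | h
      · refine ⟨-θ, ?_, ?_, Real.cos_neg θ⟩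
        · rw [abs_neg, abs_of_nonneg h0]; exact hθ
        · rw [abs_of_nonneg h]; ring
      · refine ⟨θ, ?_, ?_, rfl⟩
        · rw [abs_of_nonneg h0]; exact hθ
        · rw [abs_of_nonpos h]
    have h3 := norm_Gamma_rot (x := 1 + n - s.re) (y := -s.im) (θ := θ') (by linarith) hθ'
    rw [hθ''.1, hθ''.2] at h3
    have h4 : (1 : ℂ) - (s - n) = ((1 + n - s.re : ℝ) : ℂ) + ((-s.im : ℝ) : ℂ) * I := by
      apply Complex.ext
      · simp; ring
      · simp
    rw [← h4] at h3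
    have h5 := hC2 (1 + n - s.re) ⟨hre, by linarith⟩
    have h6 : Real.Gamma (1 + n - s.re) * Real.cos θ ^ (-(1 + (n : ℝ) - s.re)) ≤ |C2| :=
      (le_abs_self _).trans (h5.trans (le_abs_self _))
    calc ‖(Gamma s)⁻¹‖ ≤ ‖(Gamma (s - n))⁻¹‖ := h1
      _ ≤ ‖Gamma (1 - (s - n))‖ * Real.exp (Real.pi * |s.im|) := h2
      _ ≤ (Real.exp (-(θ * |s.im|)) * Real.Gamma (1 + n - s.re) *
            Real.cos θ ^ (-(1 + (n : ℝ) - s.re))) * Real.exp (Real.pi * |s.im|) :=
          mul_le_mul_of_nonneg_right h3 (Real.exp_pos _).le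
      _ = (Real.Gamma (1 + n - s.re) * Real.cos θ ^ (-(1 + (n : ℝ) - s.re))) *
            Real.exp ((Real.pi - θ) * |s.im|) := by
          have : Real.exp ((Real.pi - θ) * |s.im|)
              = Real.exp (-(θ * |s.im|)) * Real.exp (Real.pi * |s.im|) := by
            rw [← Real.exp_add]; ring_nf
          rw [this]; ring
      _ ≤ |C2| * Real.exp ((Real.pi - θ) * |s.im|) :=
          mul_le_mul_of_nonneg_right h6 (Real.exp_pos _).le
      _ ≤ _ := mul_le_mul_of_nonneg_right (by linarith [abs_nonneg C1]) (Real.exp_pos _).le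

end Pool.Agent.H4
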