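import Pool.Agent.Lib_helper98.H4.Defs2

/-!
# Block EU: Euler products over ideals
-/

namespace Pool.Agent.H4

open NumberField Complex MeasureTheory Filter Topology
open scoped UpperHalfPlane MatrixGroups ENNReal

variable {K : Type} [Field K] [NumberField K]

/-- nonzero ideals all of whose prime factors are in `S` -/
def euM (S : Finset (PI K)) : Set (NI K) := {𝔞 | ∀ 𝔮 : PI K, 𝔮.1 ∣ 𝔞.1 → 𝔮 ∈ S}

theorem eu_prime (𝔭 : PI K) : Prime 𝔭.1 := Ideal.prime_of_isPrime 𝔭.2.2 𝔭.2.1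

theorem eu_coprime (𝔭 : PI K) {𝔟 : Ideal (𝓞 K)} (h : ¬ 𝔭.1 ∣ 𝔟) (j : ℕ) :
    IsCoprime (𝔭.1 ^ j) 𝔟 := by
  have hmax : 𝔭.1.IsMaximal := 𝔭.2.1.isMaximal 𝔭.2.2
  refine IsCoprime.pow_left ?_
  rw [Ideal.isCoprime_iff_sup_eq]
  by_contra hne
  have h1 : 𝔭.1 = 𝔭.1 ⊔ 𝔟 := hmax.eq_of_le hne le_sup_left
  apply h
  rw [Ideal.dvd_iff_le]
  rw [h1]
  exact le_sup_right

theorem eu_empty : euM (∅ : Finset (PI K)) = {⟨⊤, by simp⟩} := by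
  ext 𝔞
  rw [Set.mem_singleton_iff]
  constructor
  · intro h
    apply Subtype.ext
    show 𝔞.1 = ⊤
    by_contra hne
    obtain ⟨M, hM, hle⟩ := Ideal.exists_le_maximal 𝔞.1 hne
    have hM0 : M ≠ ⊥ := by
      rintro rfl
      exact 𝔞.2 (le_bot_iff.1 hle)
    have := h ⟨M, hM.isPrime, hM0⟩ (Ideal.dvd_iff_le.2 hle)
    simp at this
  · rintro rfl 𝔮 h𝔮
    exfalso
    have h2 : 𝔮.1 ∣ (⊤ : Ideal (𝓞 K)) := h𝔮
    rw [Ideal.dvd_iff_le, top_le_iff] at h2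
    exact 𝔮.2.1.ne_top h2

/-- multiplication by a power of a prime -/
def euF (𝔭 : PI K) (S : Finset (PI K)) [DecidableEq (PI K)] (q : ℕ × euM S) :
    euM (insert 𝔭 S) :=
  ⟨⟨𝔭.1 ^ q.1 * q.2.1.1, mul_ne_zero (pow_ne_zero _ 𝔭.2.2) q.2.1.2⟩, by
    intro 𝔮 h𝔮
    have h2 : 𝔮.1 ∣ 𝔭.1 ^ q.1 * q.2.1.1 := h𝔮
    rcases (eu_prime 𝔮).dvd_or_dvd h2 with h | h
    · have h3 := (eu_prime 𝔮).dvd_of_dvd_pow h
      have h4 : 𝔮.1 = 𝔭.1 := by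
        rw [Ideal.dvd_iff_le] at h3
        exact ((𝔭.2.1.isMaximal 𝔭.2.2).eq_of_le 𝔮.2.1.ne_top h3).symm
      rw [Subtype.ext h4]
      exact Finset.mem_insert_self _ _
    · exact Finset.mem_insert_of_mem (q.2.2 𝔮 h)⟩

theorem euF_bij (𝔭 : PI K) (S : Finset (PI K)) [DecidableEq (PI K)] (h : 𝔭 ∉ S) :
    Function.Bijective (euF 𝔭 S) := by
  have hp := eu_prime 𝔭
  constructor
  · rintro ⟨j, 𝔟⟩ ⟨j', 𝔟'⟩ heq
    have h1 : 𝔭.1 ^ j * 𝔟.1.1 = 𝔭.1 ^ j' * 𝔟'.1.1 :=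
      congrArg (fun x : euM (insert 𝔭 S) => x.1.1) heq
    have hb : ¬ 𝔭.1 ∣ 𝔟.1.1 := fun hd => h (𝔟.2 𝔭 hd)
    have hb' : ¬ 𝔭.1 ∣ 𝔟'.1.1 := fun hd => h (𝔟'.2 𝔭 hd)
    have key : ∀ (i i' : ℕ) (c c' : Ideal (𝓞 K)), ¬ 𝔭.1 ∣ c' → i' < i →
        𝔭.1 ^ i * c = 𝔭.1 ^ i' * c' → False := by
      intro i i' c c' hc' hlt he
      obtain ⟨m, rfl⟩ := Nat.exists_eq_add_of_lt hlt
      have h2 : 𝔭.1 ^ i' * (𝔭.1 ^ (m + 1) * c) = 𝔭.1 ^ i' * c' := by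
        rw [← he, ← mul_assoc, ← pow_add, add_assoc]
      have h3 := mul_left_cancel₀ (pow_ne_zero i' 𝔭.2.2) h2
      apply hc'
      rw [← h3, pow_succ', mul_assoc]
      exact dvd_mul_right _ _
    have hj : j = j' := by
      rcases lt_trichotomy j j' with hlt | heq' | hlt
      · exact (key j' j _ _ hb hlt h1.symm).elim
      · exact heq'
      · exact (key j j' _ _ hb' hlt h1).elim
    subst hj
    have h2 := mul_left_cancel₀ (pow_ne_zero j 𝔭.2.2) h1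
    exact Prod.ext rfl (Subtype.ext (Subtype.ext h2))
  · rintro ⟨⟨𝔞, h𝔞⟩, hM⟩
    have hfin : FiniteMultiplicity 𝔭.1 𝔞 := FiniteMultiplicity.of_prime_left hp h𝔞
    obtain ⟨c, hc, hc'⟩ := hfin.exists_eq_pow_mul_and_not_dvd
    have hc0 : c ≠ ⊥ := by
      rintro rfl
      apply h𝔞
      rw [hc]
      exact mul_zero _
    refine ⟨(multiplicity 𝔭.1 𝔞, ⟨⟨c, hc0⟩, ?_⟩), ?_⟩
    · intro 𝔮 h𝔮
      have h2 : 𝔮.1 ∣ 𝔞 := by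
        rw [hc]
        exact h𝔮.mul_left _
      rcases Finset.mem_insert.1 (hM 𝔮 h2) with h3 | h3
      · subst h3
        exact (hc' h𝔮).elim
      · exact h3
    · exact Subtype.ext (Subtype.ext hc.symm)

theorem eu_fin {g : Ideal (𝓞 K) → ℂ} (h1 : g ⊤ = 1)
    (hm : ∀ 𝔞 𝔟 : Ideal (𝓞 K), IsCoprime 𝔞 𝔟 → g (𝔞 * 𝔟) = g 𝔞 * g 𝔟)
    (hs : Summable (fun 𝔞 : NI K => ‖g 𝔞.1‖)) (S : Finset (PI K)) :
    ∏ 𝔭 ∈ S, ∑' j : ℕ, g (𝔭.1 ^ j) = ∑' 𝔞 : euM S, g 𝔞.1.1 := by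
  classical
  induction S using Finset.induction_on with
  | empty =>
    rw [Finset.prod_empty, eu_empty]
    rw [tsum_singleton (⟨⊤, by simp⟩ : NI K) (fun 𝔞 : NI K => g 𝔞.1)]
    exact h1.symm
  | insert 𝔭 S h ih =>
    rw [Finset.prod_insert h, ih]
    have hsS : Summable (fun 𝔞 : euM S => ‖g 𝔞.1.1‖) :=
      hs.comp_injective (i := fun 𝔞 : euM S => 𝔞.1) Subtype.val_injective
    have hsp : Summable (fun j : ℕ => ‖g (𝔭.1 ^ j)‖) := by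
      refine hs.comp_injective (i := fun j : ℕ => (⟨𝔭.1 ^ j, pow_ne_zero _ 𝔭.2.2⟩ : NI K)) ?_
      intro j j' hj
      have h2 : 𝔭.1 ^ j = 𝔭.1 ^ j' := congrArg Subtype.val hj
      exact pow_injective_of_not_isUnit (eu_prime 𝔭).not_isUnit 𝔭.2.2 h2
    rw [tsum_mul_tsum_of_summable_norm hsp hsS,
      ← (Equiv.ofBijective _ (euF_bij 𝔭 S h)).tsum_eq (fun 𝔞 : euM (insert 𝔭 S) => g 𝔞.1.1)]
    refine tsum_congr fun q => ?_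
    show g (𝔭.1 ^ q.1) * g q.2.1.1 = g (𝔭.1 ^ q.1 * q.2.1.1)
    rw [hm _ _ (eu_coprime 𝔭 (fun hd => h (q.2.2 𝔭 hd)) q.1)]

theorem ideal_euler {g : Ideal (𝓞 K) → ℂ} (h1 : g ⊤ = 1)
    (hm : ∀ 𝔞 𝔟 : Ideal (𝓞 K), IsCoprime 𝔞 𝔟 → g (𝔞 * 𝔟) = g 𝔞 * g 𝔟)
    (hs : Summable (fun 𝔞 : NI K => ‖g 𝔞.1‖)) :
    HasProd (fun 𝔭 : PI K => ∑' j : ℕ, g (𝔭.1 ^ j)) (∑' 𝔞 : NI K, g 𝔞.1) := by
  classical
  have h2 : Tendsto (fun S : Finset (PI K) => ∑' 𝔞 : NI K, (euM S).indicator (fun 𝔞 => g 𝔞.1) 𝔞)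
      atTop (𝓝 (∑' 𝔞 : NI K, g 𝔞.1)) := by
    refine tendsto_tsum_of_dominated_convergence hs ?_ ?_
    · intro 𝔞
      have hfin : {𝔮 : PI K | 𝔮.1 ∣ 𝔞.1}.Finite := by
        have h3 := Ideal.finite_factors 𝔞.2
        refine Set.Finite.of_injOn (f := fun 𝔮 : PI K =>
          (⟨𝔮.1, 𝔮.2.1, 𝔮.2.2⟩ : IsDedekindDomain.HeightOneSpectrum (𝓞 K))) ?_ ?_ h3
        · intro 𝔮 h𝔮
          exact h𝔮
        · intro 𝔮 _ 𝔮' _ heq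
          apply Subtype.ext
          exact congrArg IsDedekindDomain.HeightOneSpectrum.asIdeal heq
      refine tendsto_const_nhds.congr' ?_
      filter_upwards [eventually_ge_atTop hfin.toFinset] with S hS
      rw [Set.indicator_of_mem]
      intro 𝔮 h𝔮
      exact hS (hfin.mem_toFinset.2 h𝔮)
    · refine Eventually.of_forall fun S 𝔞 => ?_
      by_cases h : 𝔞 ∈ euM S
      · rw [Set.indicator_of_mem h]
      · rw [Set.indicator_of_notMem h, norm_zero]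
        exact norm_nonneg _
  have h3 : ∀ S : Finset (PI K), ∑' 𝔞 : NI K, (euM S).indicator (fun 𝔞 => g 𝔞.1) 𝔞
      = ∏ 𝔭 ∈ S, ∑' j : ℕ, g (𝔭.1 ^ j) := by
    intro S
    rw [eu_fin h1 hm hs S, ← tsum_subtype]
  simp only [h3] at h2
  exact h2

end Pool.Agent.H4
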